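import Pool.Agent.N931.PN.Stm
import Pool.Agent.N690.EW.NXF

/-! Project PN (helper931), piece PN/A1: one arm near the boundary. -/

set_option autoImplicit false

namespace Pool.Agent.N340.PN.A1

open H974 H973 H12S H389NS H984N H984P H342P Finset
open Pool.Agent.N116.EW
open Pool.Agent.Y989.SD (hf QB mem_QB XT Win S_WIN Lp Flat emb)
open Pool.Agent.N690.EW (V mem_V ES_V win_bot win_top win_left win_right sd_le le_sd reach_ne_mem
  pow_bd WB)
open Pool.Agent.N931.PN

variable {C : ℝ}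

/-- open arms -/
theorem open_bound (hC : 0 ≤ C) (hW : WB C) {D : Dm} {z v : Vtx} {d R : ℕ} (hd : 1 ≤ d)
    (hdR : 8 * d < R) (hwin : Win (V D.l D.r 0 D.h) v R 1 1) (hv : sd z v ≤ d) :
    Pr (fun _ => (1 / 2 : ℝ)) D.edges (OAr z d R) ≤ 2 * C * ((d : ℝ) / R) ^ (1 / 3 : ℝ) := by
  have hE : D.edges = ES (V D.l D.r 0 D.h) := by rw [ES_V]; rfl
  have h1 := hW _ v R hwin (2 * d) (R - d) (by omega) (by omega) (by omega)
  have h2 : Pr (fun _ => (1 / 2 : ℝ)) D.edges (OAr z d R) ≤
      Pr (fun _ => (1 / 2 : ℝ)) D.edges (XT (V D.l D.r 0 D.h) v (2 * d) (R - d)) := by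
    apply Pr_mono okhalf
    intro F hF hN
    obtain ⟨u, w, hu, hw, hr⟩ := hN
    have hne : u ≠ w := by
      rintro rfl
      omega
    have hG : ∀ e ∈ oE z d R F, e ∈ ES (V D.l D.r 0 D.h) := by
      intro e he
      rw [← hE]
      exact hF he.1
    obtain ⟨hu2, hw2⟩ := reach_ne_mem hG hr hne
    rw [sd_le] at hu hv
    rw [le_sd] at hw
    refine ⟨u, hu2, ?_, w, hw2, ?_, hr.mono Set.inter_subset_left⟩
    · rw [mem_BX]
      omega
    · rw [mem_BX]
      omega
  refine h2.trans ?_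
  rw [hE]
  refine h1.trans ?_
  have hR : (0 : ℝ) < R := by exact_mod_cast (by omega : 0 < R)
  have hdR' : 8 * (d : ℝ) < R := by exact_mod_cast hdR
  have hd' : (1 : ℝ) ≤ d := by exact_mod_cast hd
  push_cast
  apply pow_bd hC (by positivity) hR (by positivity) (by linarith)
  rw [div_le_iff₀ (by linarith), mul_assoc, div_mul_eq_mul_div, mul_div_assoc']
  rw [le_div_iff₀ hR]
  nlinarith

/-- dual arms -/
theorem dual_bound (hC : 0 ≤ C) (hW : WB C) {D : Dm} {z v : Vtx} {d R : ℕ} (hd : 1 ≤ d)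
    (hdR : 8 * d < R) (hwin : Win (V (D.l - 1) D.r (-1) D.h) v R 1 1) (hv : sd z v ≤ d + 1) :
    Pr (fun _ => (1 / 2 : ℝ)) D.edges (DAr D z d R) ≤ 2 * C * ((d : ℝ) / R) ^ (1 / 3 : ℝ) := by
  set T : Finset Vtx := V (D.l - 1) D.r (-1) D.h with hT
  have hsub : dmp D.edges ⊆ ES T := by
    rw [hT, ES_V]
    rintro ⟨x, y, _ | _⟩ he
    · rw [mem_dmp, dls_f, Dm.edges, mem_RE_true] at he
      rw [mem_RE_false]
      omega
    · rw [mem_dmp, dls_t, Dm.edges, mem_RE_false] at he
      rw [mem_RE_true]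
      omega
  have h1 := hW _ v R hwin (4 * d) (R - 2 * d) (by omega) (by omega) (by omega)
  have h2 : Pr (fun _ => (1 / 2 : ℝ)) D.edges (DAr D z d R) ≤
      Pr (fun _ => (1 / 2 : ℝ)) D.edges
        (fun F => XT T v (4 * d) (R - 2 * d) (dmp (D.edges \ F))) := by
    apply Pr_mono okhalf
    intro F hF hN
    obtain ⟨f, g, hu, hg, hr⟩ := hN
    rw [← reach_dl] at hr
    have hne : f ≠ g := by
      rintro rfl
      omega
    rw [sd_le] at hu hv
    rw [le_sd] at hg
    have hG : ∀ e' ∈ (dl '' cE D z d R F : Set Edg), e' ∈ dmp (D.edges \ F) := by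
      rintro e' ⟨e, ⟨he1, he2, he3⟩, rfl⟩
      rw [mem_dmp, Equiv.symm_apply_apply, Finset.mem_sdiff]
      exact ⟨he1, he2⟩
    have hG2 : ∀ e' ∈ (dl '' cE D z d R F : Set Edg), e' ∈ ES T := by
      intro e' he'
      apply hsub
      have h5 := hG e' he'
      rw [mem_dmp, Finset.mem_sdiff] at h5
      rw [mem_dmp]
      exact h5.1
    obtain ⟨hf2, hg2⟩ := reach_ne_mem (T := T) hG2 hr hne
    refine ⟨f, hf2, ?_, g, hg2, ?_, hr.mono ?_⟩
    · rw [mem_BX]
      omega
    · rw [mem_BX]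
      omega
    · intro e he
      exact_mod_cast hG e he
  have h3 : Pr (fun _ => (1 / 2 : ℝ)) D.edges
      (fun F => XT T v (4 * d) (R - 2 * d) (dmp (D.edges \ F))) ≤
      Pr hf (ES T) (XT T v (4 * d) (R - 2 * d)) := by
    have e1 := Pr_compl (fun _ : Edg => (1 / 2 : ℝ)) D.edges
      (fun F => XT T v (4 * d) (R - 2 * d) (dmp F))
    have e2 : (fun _ : Edg => (1 : ℝ) - 1 / 2) = fun _ => (1 / 2 : ℝ) := by
      funext _; norm_num
    rw [e2] at e1
    rw [← e1, ← pr_dmp]
    refine Pr_mono_set okhalf hsub ?_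
    intro F G hFG _ hF
    obtain ⟨u, hu, hu2, w, hw, hw2, hr⟩ := hF
    exact ⟨u, hu, hu2, w, hw, hw2, hr.mono (by exact_mod_cast hFG)⟩
  refine h2.trans (h3.trans (h1.trans ?_))
  have hR : (0 : ℝ) < R := by exact_mod_cast (by omega : 0 < R)
  have hdR' : 8 * (d : ℝ) < R := by exact_mod_cast hdR
  have hd' : (1 : ℝ) ≤ d := by exact_mod_cast hd
  push_cast
  apply pow_bd hC (by positivity) hR (by positivity) (by linarith)
  rw [div_le_iff₀ (by linarith), mul_assoc, div_mul_eq_mul_div, mul_div_assoc']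
  rw [le_div_iff₀ hR]
  nlinarith

/-- **One arm near the boundary.** -/
theorem main : Pool.Agent.N931.PN.S_A1 := by
  intro κ hκ
  obtain ⟨c₀, C₀, -, hC₀, hWIN⟩ := Pool.Agent.Y989.SD.m_WIN 1 1 one_pos
  have hW : WB C₀ := fun T v L hw r R h1 h2 h3 => (hWIN T v L hw r R h1 h2 h3).1
  refine ⟨2 * C₀ + 2, min 1 κ / 1000, by positivity, by positivity, ?_⟩
  intro n D hn hS z d R hz hd hbd hdR hRq
  have hd' : (1 : ℝ) ≤ d := by exact_mod_cast hd
  have hdR' : (d : ℝ) ≤ R := by exact_mod_cast hdR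
  have hR0 : (0 : ℝ) < R := by linarith
  have hpow0 : (0 : ℝ) ≤ ((d : ℝ) / R) ^ (1 / 3 : ℝ) := by positivity
  by_cases h8 : R ≤ 8 * d
  · -- trivial case
    have h2 : (1 / 8 : ℝ) ≤ (d : ℝ) / R := by
      rw [le_div_iff₀ hR0]
      have : (R : ℝ) ≤ 8 * d := by exact_mod_cast h8
      linarith
    have h3 : (1 / 8 : ℝ) ^ (1 / 3 : ℝ) ≤ ((d : ℝ) / R) ^ (1 / 3 : ℝ) :=
      Real.rpow_le_rpow (by norm_num) h2 (by norm_num)
    have h4 : (1 / 8 : ℝ) ^ (1 / 3 : ℝ) = 1 / 2 := by
      rw [show (1 / 8 : ℝ) = (1 / 2) ^ (3 : ℝ) by norm_num, ← Real.rpow_mul (by norm_num)]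
      norm_num
    rw [h4] at h3
    constructor
    · have h1 : Pr (fun _ => (1 / 2 : ℝ)) D.edges (OAr z d R) ≤ 1 := Pr_le_one okhalf _ _
      nlinarith
    · have h1 : Pr (fun _ => (1 / 2 : ℝ)) D.edges (DAr D z d R) ≤ 1 := Pr_le_one okhalf _ _
      nlinarith
  · push Not at h8
    -- integer facts
    have hq0 : (0 : ℝ) < qd D z := by
      by_contra hn
      push Not at hn
      have : min 1 κ / 1000 * (qd D z : ℝ) ≤ 0 := mul_nonpos_of_nonneg_of_nonpos (by positivity) hn
      linarith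
    have hq1 : 1000 * (R : ℤ) ≤ qd D z := by
      have h1 : (R : ℝ) ≤ 1 / 1000 * qd D z := by
        refine hRq.trans ?_
        apply mul_le_mul_of_nonneg_right _ hq0.le
        have := min_le_left (1 : ℝ) κ
        linarith
      have h2 : 1000 * (R : ℝ) ≤ qd D z := by linarith
      exact_mod_cast h2
    have hqc : (1000 * (R : ℤ) ≤ sd z (D.l, 0) ∧ 1000 * (R : ℤ) ≤ sd z (D.r, 0)) ∧
        (1000 * (R : ℤ) ≤ sd z (D.l, D.h) ∧ 1000 * (R : ℤ) ≤ sd z (D.r, D.h)) ∧
        1000 * (R : ℤ) ≤ sd z (D.t, D.h) ∧ 1000 * (R : ℤ) ≤ sd z (0, 0) := by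
      unfold qd at hq1
      simp only [le_min_iff] at hq1
      tauto
    obtain ⟨hok, hs1, hs2, hs3, hs4, hs5⟩ := hS
    obtain ⟨hl, hr, hh, hlt, htr⟩ := hok
    unfold inR at hz
    have hqn : (qd D z : ℝ) ≤ n := by
      have h1 : qd D z ≤ max (D.r - D.l) D.h := by
        have h2 : qd D z ≤ sd z (D.l, 0) := by
          unfold qd
          exact (min_le_left _ _).trans ((min_le_left _ _).trans (min_le_left _ _))
        refine h2.trans ?_
        rw [sd_le]
        simp only
        have := le_max_left (D.r - D.l) D.h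
        have := le_max_right (D.r - D.l) D.h
        omega
      have h2 : ((max (D.r - D.l) D.h : ℤ) : ℝ) ≤ n := by
        push_cast
        push_cast at hs4
        exact max_le hs4 hs5
      exact (by exact_mod_cast h1 : (qd D z : ℝ) ≤ ((max (D.r - D.l) D.h : ℤ) : ℝ)).trans h2
    have hκn : 1000 * (R : ℝ) ≤ κ * n := by
      have h1 : (R : ℝ) ≤ κ / 1000 * qd D z := by
        refine hRq.trans ?_
        apply mul_le_mul_of_nonneg_right _ hq0.le
        have := min_le_right (1 : ℝ) κ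
        linarith
      have h2 : κ / 1000 * (qd D z : ℝ) ≤ κ / 1000 * n :=
        mul_le_mul_of_nonneg_left hqn (by positivity)
      linarith
    have hRl : 1000 * (R : ℤ) ≤ -D.l := by
      have : 1000 * (R : ℝ) ≤ -D.l := hκn.trans hs1
      exact_mod_cast this
    have hRr : 1000 * (R : ℤ) ≤ D.r := by
      have : 1000 * (R : ℝ) ≤ D.r := hκn.trans hs2
      exact_mod_cast this
    have hRh : 1000 * (R : ℤ) ≤ D.h := by
      have : 1000 * (R : ℝ) ≤ D.h := hκn.trans hs3
      exact_mod_cast this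
    obtain ⟨⟨q1, q2⟩, ⟨q3, q4⟩, q5, q6⟩ := hqc
    rw [le_sd] at q1 q2 q3 q4 q5 q6
    simp only at q1 q2 q3 q4 q5 q6
    have hd0 : (1 : ℤ) ≤ d := by exact_mod_cast hd
    have h80 : 8 * (d : ℤ) < R := by exact_mod_cast h8
    have hfin : Pr (fun _ => (1 / 2 : ℝ)) D.edges (OAr z d R) ≤
        2 * C₀ * ((d : ℝ) / R) ^ (1 / 3 : ℝ) ∧
        Pr (fun _ => (1 / 2 : ℝ)) D.edges (DAr D z d R) ≤
        2 * C₀ * ((d : ℝ) / R) ^ (1 / 3 : ℝ) := by
      -- which side
      have hside : z.1 - D.l ≤ d ∨ D.r - z.1 ≤ d ∨ z.2 ≤ d ∨ D.h - z.2 ≤ d := by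
        unfold Dm.bd at hbd
        simp only [min_le_iff] at hbd
        exact or_assoc.1 hbd
      rcases hside with hs | hs | hs | hs
      · -- left side
        have a1 : 999 * (R : ℤ) ≤ z.2 := by clear q2 q3 q4 q5 q6; omega
        have a2 : 999 * (R : ℤ) ≤ D.h - z.2 := by clear q1 q2 q4 q5 q6; omega
        clear q1 q2 q3 q4 q5 q6 hq1
        constructor
        · apply open_bound hC₀.le hW hd h8 (v := (D.l, z.2))
          · apply win_left <;> (try simp only) <;> omega
          · rw [sd_le]; simp only; omega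
        · apply dual_bound hC₀.le hW hd h8 (v := (D.l - 1, z.2))
          · apply win_left <;> (try simp only) <;> omega
          · rw [sd_le]; simp only; omega
      · -- right side
        have a1 : 999 * (R : ℤ) ≤ z.2 := by clear q1 q3 q4 q5 q6; omega
        have a2 : 999 * (R : ℤ) ≤ D.h - z.2 := by clear q1 q2 q3 q5 q6; omega
        clear q1 q2 q3 q4 q5 q6 hq1
        constructor
        · apply open_bound hC₀.le hW hd h8 (v := (D.r, z.2))
          · apply win_right <;> (try simp only) <;> omega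
          · rw [sd_le]; simp only; omega
        · apply dual_bound hC₀.le hW hd h8 (v := (D.r, z.2))
          · apply win_right <;> (try simp only) <;> omega
          · rw [sd_le]; simp only; omega
      · -- bottom side
        have a1 : 999 * (R : ℤ) ≤ z.1 - D.l := by clear q2 q3 q4 q5 q6; omega
        have a2 : 999 * (R : ℤ) ≤ D.r - z.1 := by clear q1 q3 q4 q5 q6; omega
        clear q1 q2 q3 q4 q5 q6 hq1
        constructor
        · apply open_bound hC₀.le hW hd h8 (v := (z.1, 0))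
          · apply win_bot <;> (try simp only) <;> omega
          · rw [sd_le]; simp only; omega
        · apply dual_bound hC₀.le hW hd h8 (v := (z.1, -1))
          · apply win_bot <;> (try simp only) <;> omega
          · rw [sd_le]; simp only; omega
      · -- top side
        have a1 : 999 * (R : ℤ) ≤ z.1 - D.l := by clear q1 q2 q4 q5 q6; omega
        have a2 : 999 * (R : ℤ) ≤ D.r - z.1 := by clear q1 q2 q3 q5 q6; omega
        clear q1 q2 q3 q4 q5 q6 hq1
        constructor
        · apply open_bound hC₀.le hW hd h8 (v := (z.1, D.h))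
          · apply win_top <;> (try simp only) <;> omega
          · rw [sd_le]; simp only; omega
        · apply dual_bound hC₀.le hW hd h8 (v := (z.1, D.h))
          · apply win_top <;> (try simp only) <;> omega
          · rw [sd_le]; simp only; omega
    constructor
    · refine hfin.1.trans ?_
      nlinarith
    · refine hfin.2.trans ?_
      nlinarith

end Pool.Agent.N340.PN.A1
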